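import Mathlib
import Pool.Agent.Helper78.EC.Disj
import Pool.Agent.Helper78.EC.Dict
import Pool.Graph.R_seed8.H301R2.SSE.Forms

/-!
# Baker's theorem and the six exponentials theorem over generic fields

For all `t` outside of a set of Hausdorff dimension exactly `2 m - 2` of `ℂᵐ` (a countable set for
`m = 1`), the theorems of Baker and the strong six exponentials theorem of Roy are true with the field
of the algebraic numbers replaced by the algebraic closure of `ℚ(t_1, …, t_m)`, and the strong four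
exponentials conjecture over this field is equivalent to the strong four exponentials conjecture.
-/

set_option autoImplicit false

namespace Pool.Agent.Results.MP_60829e_nt.BakerSixExponentials

open Module Set Pool.Agent.Helper78.SC Pool.Agent.Helper78.EC Pool.Agent.Helper78.EC.Disj
open scoped ENNReal

/-- The logarithms of the nonzero elements of `K`. -/
def Logs (K : IntermediateField ℚ ℂ) : Set ℂ := {l | Complex.exp l ∈ K}

/-- The linear combinations of `1` and of logarithms of elements of `K` with coefficients in `K`. -/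
noncomputable def Lin (K : IntermediateField ℚ ℂ) : Submodule K ℂ :=
  Submodule.span K ({1} ∪ Logs K)

/-- Baker's theorem for the field `K`: logarithms of elements of `K` which are linearly independent over
`ℚ` are, together with `1`, linearly independent over `K`. -/
def Baker (K : IntermediateField ℚ ℂ) : Prop :=
  ∀ (n : ℕ) (l : Fin n → ℂ), (∀ i, l i ∈ Logs K) → LinearIndependent ℚ l →
    LinearIndependent K (Fin.cons 1 l : Fin (n + 1) → ℂ)

/-- If `x_1, …, x_d` and also `y_1, …, y_e` are linearly independent over `K`, then one of the products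
`x_i y_j` is not in `Lin K`.  For `K` the field of the algebraic numbers this is the strong six
exponentials theorem if `(d, e) = (2, 3)` and the strong four exponentials conjecture if
`(d, e) = (2, 2)`. -/
def Products (K : IntermediateField ℚ ℂ) (d e : ℕ) : Prop :=
  ∀ (x : Fin d → ℂ) (y : Fin e → ℂ), LinearIndependent K x → LinearIndependent K y →
    ∃ i j, x i * y j ∉ Lin K

/-- The point `t` is good: Baker's theorem and the strong six exponentials theorem are true for the
field `Kt t` of the numbers which are algebraic over `ℚ(t)`, and `Products` for this field is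
equivalent to `Products` for the field `QB` of the algebraic numbers, for all sizes. -/
structure Good {m : ℕ} (t : Fin m → ℂ) : Prop where
  baker : Baker (Kt t)
  six : Products (Kt t) 2 3
  products : ∀ d e : ℕ, 2 ≤ d → 2 ≤ e → (Products (Kt t) d e ↔ Products QB d e)

/-! ### The decomposition -/

theorem exp_mem_Kt {m : ℕ} {t : Fin m → ℂ} {n : ℕ} {l : Fin n → ℂ} (hl : ∀ i, l i ∈ Logs (Kt t))
    (q : Fin n → ℚ) : Complex.exp (∑ i, (q i : ℂ) * l i) ∈ Kt t :=
  mem_Kt.2 (Use.exp_sum (fun i => mem_Kt.1 (hl i)) q)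

/-- derivations which kill `t` kill the field -/
theorem kills_Kt {m : ℕ} {t : Fin m → ℂ} {D : Derivation ℚ ℂ ℂ} (hD : ∀ j, D (t j) = 0) :
    ∀ w ∈ Kt t, D w = 0 := by
  intro w hw
  refine Use.kills_alg (Use.kills_adjoin ?_) (mem_Kt.1 hw)
  rintro _ ⟨j, rfl⟩
  exact hD j

theorem decompW {m : ℕ} {t : Fin m → ℂ} (ht : Generic.Gen ⊥ t) (W : Submodule ℚ ℂ)
    [FiniteDimensional ℚ W] (hW : ∀ w ∈ W, Complex.exp w ∈ Kt t) :
    ∃ (p s : ℕ) (l : Fin p → ℂ) (u : Fin s → ℂ), (∀ r, IsAlgebraic ℚ (Complex.exp (l r))) ∧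
      LinearIndependent ℚ l ∧
      (∀ v : Fin s → ℂ, ∃ D : Derivation ℚ ℂ ℂ, (∀ w ∈ Closure.ecl ⊥, D w = 0) ∧
        (∀ j, D (t j) = 0) ∧ ∀ k, D (u k) = v k) ∧
      ∀ w ∈ W, ∃ (q : Fin p → ℚ) (q' : Fin s → ℚ),
        w = ∑ r, (q r : ℂ) * l r + ∑ k, (q' k : ℂ) * u k := by
  let P : Submodule ℚ ℂ :=
    { carrier := {l | IsAlgebraic ℚ (Complex.exp l)}
      add_mem' := by
        intro a b ha hb
        rw [mem_ofPred_eq, Complex.exp_add]
        exact IsAlgebraic.mul ha hb
      zero_mem' := by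
        rw [mem_ofPred_eq, Complex.exp_zero]
        exact isAlgebraic_one
      smul_mem' := by
        intro q l hl
        rw [mem_ofPred_eq, Rat.smul_def]
        exact Use.exp_rat hl q }
  let W₀ : Submodule ℚ W := P.comap W.subtype
  obtain ⟨W₁, hc⟩ := W₀.exists_isCompl
  let b₀ := finBasis ℚ W₀
  let b₁ := finBasis ℚ W₁
  refine ⟨finrank ℚ W₀, finrank ℚ W₁, fun i => ((b₀ i : W) : ℂ), fun i => ((b₁ i : W) : ℂ),
    fun i => (b₀ i).2, ?_, ?_, ?_⟩
  · exact (b₀.linearIndependent.map' W₀.subtype (Submodule.ker_subtype _)).map' W.subtype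
      (Submodule.ker_subtype _)
  · intro v
    have h1 := Use.log_algInd ht (l := fun i => ((b₁ i : W) : ℂ))
      (fun i => mem_Kt.1 (hW _ (b₁ i : W).2)) (by
      intro q hq
      have h2 : (∑ i, q i • b₁ i : W₁) = 0 := by
        have h3 : ((∑ i, q i • b₁ i : W₁) : W) ∈ W₀ := by
          change (((∑ i, q i • b₁ i : W₁) : W) : ℂ) ∈ P
          have h4 : (((∑ i, q i • b₁ i : W₁) : W) : ℂ) = ∑ i, (q i : ℂ) * ((b₁ i : W) : ℂ) := by
            rw [Submodule.coe_sum, Submodule.coe_sum]
            exact Finset.sum_congr rfl (fun i _ => Rat.smul_def _ _)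
          rw [h4]
          exact hq
        exact Subtype.ext (Submodule.disjoint_def.1 hc.disjoint _ h3 (∑ i, q i • b₁ i : W₁).2)
      exact funext (Fintype.linearIndependent_iff.1 b₁.linearIndependent q h2))
    obtain ⟨D, hD1, hD2⟩ := Use.exists_der h1 (Sum.elim 0 v)
    exact ⟨D, hD1, fun j => hD2 (Sum.inl j), fun k => hD2 (Sum.inr k)⟩
  · intro w hw
    have hx : (⟨w, hw⟩ : W) ∈ W₀ ⊔ W₁ := by
      rw [hc.sup_eq_top]
      trivial
    obtain ⟨a, ha, b, hb, hab⟩ := Submodule.mem_sup.1 hx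
    refine ⟨fun r => b₀.repr ⟨a, ha⟩ r, fun k => b₁.repr ⟨b, hb⟩ k, ?_⟩
    have h1 : a = ∑ r, b₀.repr ⟨a, ha⟩ r • (b₀ r : W) := by
      have := congrArg (fun y : W₀ => (y : W)) (b₀.sum_repr ⟨a, ha⟩)
      change ((∑ r, b₀.repr ⟨a, ha⟩ r • b₀ r : W₀) : W) = a at this
      rw [Submodule.coe_sum] at this
      exact this.symm
    have h2 : b = ∑ k, b₁.repr ⟨b, hb⟩ k • (b₁ k : W) := by
      have := congrArg (fun y : W₁ => (y : W)) (b₁.sum_repr ⟨b, hb⟩)
      change ((∑ k, b₁.repr ⟨b, hb⟩ k • b₁ k : W₁) : W) = b at this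
      rw [Submodule.coe_sum] at this
      exact this.symm
    have h3 : w = ((a + b : W) : ℂ) := by rw [hab]
    rw [h3, Submodule.coe_add]
    congr 1
    · conv_lhs => rw [h1]
      rw [Submodule.coe_sum]
      exact Finset.sum_congr rfl (fun r _ => Rat.smul_def _ _)
    · conv_lhs => rw [h2]
      rw [Submodule.coe_sum]
      exact Finset.sum_congr rfl (fun r _ => Rat.smul_def _ _)

theorem baker_QB {p : ℕ} {l : Fin p → ℂ} (hl : ∀ r, IsAlgebraic ℚ (Complex.exp (l r)))
    (hli : LinearIndependent ℚ l) (c : Fin (p + 1) → ℂ) (hc : ∀ r, c r ∈ QB)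
    (h : ∑ r, c r * (Fin.cons 1 l : Fin (p + 1) → ℂ) r = 0) : ∀ r, c r = 0 := by
  rw [Fin.sum_univ_succ] at h
  simp only [Fin.cons_zero, Fin.cons_succ, mul_one] at h
  obtain ⟨h1, h2⟩ := Pool.Agent.H297R2.baker_inhom l hl hli (c 0) (mem_QB.1 (hc 0))
    (fun i => c i.succ) (fun i => mem_QB.1 (hc i.succ)) h
  intro r
  exact Fin.cases h1 h2 r

theorem cons_mem_ecl {p : ℕ} {l : Fin p → ℂ} (hl : ∀ r, IsAlgebraic ℚ (Complex.exp (l r)))
    (r : Fin (p + 1)) : (Fin.cons 1 l : Fin (p + 1) → ℂ) r ∈ Closure.ecl ⊥ := by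
  refine Fin.cases ?_ (fun i => ?_) r
  · rw [Fin.cons_zero]
    exact one_mem _
  · rw [Fin.cons_succ]
    exact Closure.log_mem (Closure.alg_mem ((hl i).tower_top _))

/-- Baker's theorem in the field `K_t`, for logarithms of algebraic numbers -/
theorem baker_disj {m : ℕ} {t : Fin m → ℂ} (ht : Generic.Gen ⊥ t) {p : ℕ} {l : Fin p → ℂ}
    (hl : ∀ r, IsAlgebraic ℚ (Complex.exp (l r))) (hli : LinearIndependent ℚ l)
    (c : Fin (p + 1) → ℂ) (hc : ∀ r, c r ∈ Kt t)
    (h : ∑ r, c r * (Fin.cons 1 l : Fin (p + 1) → ℂ) r = 0) : ∀ r, c r = 0 := by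
  intro r
  exact disj (Use.gen_algInd ht) Finset.univ c (Fin.cons 1 l : Fin (p + 1) → ℂ) (fun i _ => hc i)
    (fun i _ => cons_mem_ecl hl i)
    (fun c' hc' h' i _ => baker_QB hl hli c' (fun i => hc' i (Finset.mem_univ i)) h' i) h r
    (Finset.mem_univ r)

theorem baker_of_gen {m : ℕ} {t : Fin m → ℂ} (ht : Generic.Gen ⊥ t) : Baker (Kt t) := by
  intro n L hL hli
  have hfin : FiniteDimensional ℚ (Submodule.span ℚ (range L)) :=
    FiniteDimensional.span_of_finite ℚ (finite_range L)
  obtain ⟨p, s, l, u, hl, hlli, hder, hrep⟩ := decompW ht (Submodule.span ℚ (range L)) (by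
    intro w hw
    obtain ⟨q, rfl⟩ := (Submodule.mem_span_range_iff_exists_fun ℚ).1 hw
    have := exp_mem_Kt hL q
    simpa only [Rat.smul_def] using this)
  choose q q' hqq using fun i => hrep (L i) (Submodule.subset_span ⟨i, rfl⟩)
  rw [Fintype.linearIndependent_iff]
  intro g hg
  rw [Fin.sum_univ_succ] at hg
  simp only [Fin.cons_zero, Fin.cons_succ] at hg
  have hg' : (g 0 : ℂ) + ∑ i, (g i.succ : ℂ) * L i = 0 := by
    rw [← hg, Algebra.smul_def, mul_one]
    rfl
  -- the generic part
  have h1 : ∀ k, ∑ i, (g (Fin.succ i) : ℂ) * (q' i k : ℂ) = 0 := by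
    intro k
    obtain ⟨D, hD1, hD2, hD3⟩ := hder (fun j => if j = k then 1 else 0)
    have hDK := kills_Kt hD2
    have hDL : ∀ i, D (L i) = (q' i k : ℂ) := by
      intro i
      rw [hqq i, map_add, map_sum, map_sum]
      have e1 : ∑ r, D ((q i r : ℂ) * l r) = 0 := by
        refine Finset.sum_eq_zero (fun r _ => ?_)
        rw [Ax.rat_mul, hD1 _ (Closure.log_mem (Closure.alg_mem ((hl r).tower_top _))), mul_zero]
      have e2 : ∀ j, D ((q' i j : ℂ) * u j) = if j = k then (q' i j : ℂ) else 0 := by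
        intro j
        rw [Ax.rat_mul, hD3]
        split_ifs <;> simp
      rw [e1, zero_add, Finset.sum_congr rfl (fun j _ => e2 j)]
      simp
    have h2 := congrArg D hg'
    rw [map_zero, map_add, hDK _ (g 0).2, zero_add, map_sum] at h2
    rw [← h2]
    refine Finset.sum_congr rfl (fun i _ => ?_)
    rw [Derivation.leibniz, hDK _ (g i.succ).2, smul_zero, add_zero, smul_eq_mul, hDL]
  have h2 : (g 0 : ℂ) + ∑ r, (∑ i : Fin n, (g (Fin.succ i) : ℂ) * (q i r : ℂ)) * l r = 0 := by
    have e1 : ∑ i : Fin n, (g (Fin.succ i) : ℂ) * L i =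
        ∑ r, (∑ i : Fin n, (g (Fin.succ i) : ℂ) * (q i r : ℂ)) * l r +
        ∑ k, (∑ i : Fin n, (g (Fin.succ i) : ℂ) * (q' i k : ℂ)) * u k := by
      simp only [Finset.sum_mul]
      rw [Finset.sum_comm, Finset.sum_comm (s := (Finset.univ : Finset (Fin s))),
        ← Finset.sum_add_distrib]
      refine Finset.sum_congr rfl (fun i _ => ?_)
      conv_lhs => rw [hqq i, mul_add, Finset.mul_sum, Finset.mul_sum]
      congr 1
      · exact Finset.sum_congr rfl (fun r _ => by ring)
      · exact Finset.sum_congr rfl (fun r _ => by ring)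
    rw [e1] at hg'
    have e2 : ∑ k, (∑ i : Fin n, (g (Fin.succ i) : ℂ) * (q' i k : ℂ)) * u k = 0 :=
      Finset.sum_eq_zero (fun k _ => by rw [h1 k, zero_mul])
    rw [e2, add_zero] at hg'
    exact hg'
  have h3 := baker_disj ht hl hlli
    (Fin.cons (g 0 : ℂ) (fun r => ∑ i : Fin n, (g (Fin.succ i) : ℂ) * (q i r : ℂ)))
    (by
      intro r
      refine Fin.cases ?_ (fun r => ?_) r
      · rw [Fin.cons_zero]
        exact (g 0).2
      · rw [Fin.cons_succ]
        exact sum_mem (fun i _ => mul_mem (g i.succ).2 ((Kt t).algebraMap_mem (q i r)))) (by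
      rw [Fin.sum_univ_succ]
      simp only [Fin.cons_zero, Fin.cons_succ, mul_one]
      exact h2)
  have h4 : (g 0 : ℂ) = 0 := h3 0
  have h5 : ∀ r, ∑ i : Fin n, (g (Fin.succ i) : ℂ) * (q i r : ℂ) = 0 := fun r => h3 r.succ
  -- the rational vectors are independent
  have hQ : LinearIndependent ℚ (fun (i : Fin n) => (Sum.elim (q i) (q' i) : Fin p ⊕ Fin s → ℚ)) := by
    rw [Fintype.linearIndependent_iff]
    intro a ha
    apply Fintype.linearIndependent_iff.1 hli
    have e0 : ∀ x, ∑ i, a i * (Sum.elim (q i) (q' i) : Fin p ⊕ Fin s → ℚ) x = 0 := by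
      intro x
      have := congrFun ha x
      simpa [Finset.sum_apply] using this
    have e1 : ∑ i, a i • L i = ∑ r, ((∑ i, a i * q i r : ℚ) : ℂ) * l r +
        ∑ k, ((∑ i, a i * q' i k : ℚ) : ℂ) * u k := by
      push_cast
      simp only [Finset.sum_mul]
      rw [Finset.sum_comm, Finset.sum_comm (s := (Finset.univ : Finset (Fin s))),
        ← Finset.sum_add_distrib]
      refine Finset.sum_congr rfl (fun i _ => ?_)
      conv_lhs => rw [hqq i, Rat.smul_def, mul_add, Finset.mul_sum, Finset.mul_sum]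
      congr 1
      · exact Finset.sum_congr rfl (fun r _ => by ring)
      · exact Finset.sum_congr rfl (fun r _ => by ring)
    rw [e1]
    have e2 : ∀ r, ∑ i, a i * q i r = 0 := fun r => e0 (Sum.inl r)
    have e3 : ∀ k, ∑ i, a i * q' i k = 0 := fun k => e0 (Sum.inr k)
    simp [e2, e3]
  have hC : LinearIndependent ℂ (fun (i : Fin n) (x : Fin p ⊕ Fin s) =>
      (((Sum.elim (q i) (q' i) : Fin p ⊕ Fin s → ℚ) x : ℚ) : ℂ)) :=
    (linearIndependent_algebraMap_comp_iff (R := ℚ) (S := ℂ)
      (v := fun (i : Fin n) => (Sum.elim (q i) (q' i) : Fin p ⊕ Fin s → ℚ))).2 hQ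
  have h6 := Fintype.linearIndependent_iff.1 hC (fun i => (g (Fin.succ i) : ℂ)) (by
    funext x
    rw [Finset.sum_apply]
    rcases x with r | k
    · simpa using h5 r
    · simpa using h1 k)
  intro i
  refine Fin.cases ?_ (fun i => ?_) i
  · exact Subtype.ext h4
  · exact Subtype.ext (h6 i)

/-! ### Products -/

/-- finitely many elements of `Lin K_t` -/
theorem decomp {m : ℕ} {t : Fin m → ℂ} (ht : Generic.Gen ⊥ t) {ι : Type} [Finite ι] (z : ι → ℂ)
    (hz : ∀ i, z i ∈ Lin (Kt t)) :
    ∃ (p s : ℕ) (l : Fin p → ℂ) (u : Fin s → ℂ) (c : ι → Fin (p + 1) → Kt t)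
      (a : ι → Fin s → Kt t), (∀ r, IsAlgebraic ℚ (Complex.exp (l r))) ∧
      LinearIndependent ℚ l ∧
      (∀ v : Fin s → ℂ, ∃ D : Derivation ℚ ℂ ℂ, (∀ w ∈ Closure.ecl ⊥, D w = 0) ∧
        (∀ j, D (t j) = 0) ∧ ∀ k, D (u k) = v k) ∧
      ∀ i, z i = ∑ r, (c i r : ℂ) * (Fin.cons 1 l : Fin (p + 1) → ℂ) r +
        ∑ k, (a i k : ℂ) * u k := by
  classical
  have h1 : ∀ i, ∃ T : Finset ℂ, (T : Set ℂ) ⊆ {1} ∪ Logs (Kt t) ∧
      z i ∈ Submodule.span (Kt t) (T : Set ℂ) := fun i =>
    Submodule.mem_span_finite_of_mem_span (hz i)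
  choose T hT1 hT2 using h1
  let U : Set ℂ := (⋃ i, (T i : Set ℂ)) ∩ Logs (Kt t)
  have hU : U.Finite := (Set.finite_iUnion (fun i => (T i).finite_toSet)).inter_of_left _
  let W : Submodule ℚ ℂ := Submodule.span ℚ U
  have hfin : FiniteDimensional ℚ W := FiniteDimensional.span_of_finite ℚ hU
  have hW : ∀ w ∈ W, Complex.exp w ∈ Kt t := by
    intro w hw
    have hw' : w ∈ Submodule.span ℚ (range (fun x : U => (x : ℂ))) := by
      rwa [Subtype.range_coe]
    have : Finite U := hU
    have : Fintype U := Fintype.ofFinite U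
    let e := Fintype.equivFin U
    have h2 : range (fun x : U => (x : ℂ)) = range (fun i => ((e.symm i : U) : ℂ)) := by
      rw [show (fun i => ((e.symm i : U) : ℂ)) = (fun x : U => (x : ℂ)) ∘ e.symm from rfl,
        e.symm.surjective.range_comp]
    rw [h2] at hw'
    obtain ⟨q, rfl⟩ := (Submodule.mem_span_range_iff_exists_fun ℚ).1 hw'
    have := exp_mem_Kt (l := fun i => ((e.symm i : U) : ℂ)) (fun i => (e.symm i).2.2) q
    simpa only [Rat.smul_def] using this
  obtain ⟨p, s, l, u, hl, hlli, hder, hrep⟩ := decompW ht W hW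
  have h3 : ∀ i, z i ∈ Submodule.span (Kt t)
      (range (Sum.elim (Fin.cons 1 l : Fin (p + 1) → ℂ) u)) := by
    intro i
    refine Submodule.span_le.2 ?_ (hT2 i)
    intro w hw
    rcases hT1 i hw with h4 | h4
    · rw [mem_singleton_iff] at h4
      rw [h4]
      exact Submodule.subset_span ⟨Sum.inl 0, rfl⟩
    · obtain ⟨q, q', hqq⟩ := hrep w (Submodule.subset_span ⟨mem_iUnion.2 ⟨i, hw⟩, h4⟩)
      rw [hqq]
      refine add_mem (sum_mem (fun r _ => ?_)) (sum_mem (fun k _ => ?_))
      · have h5 := (Submodule.span (Kt t) (range (Sum.elim (Fin.cons 1 l : Fin (p + 1) → ℂ) u))).smul_mem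
          (algebraMap ℚ (Kt t) (q r)) (Submodule.subset_span ⟨Sum.inl r.succ, rfl⟩)
        rw [Algebra.smul_def] at h5
        exact h5
      · have h5 := (Submodule.span (Kt t) (range (Sum.elim (Fin.cons 1 l : Fin (p + 1) → ℂ) u))).smul_mem
          (algebraMap ℚ (Kt t) (q' k)) (Submodule.subset_span ⟨Sum.inr k, rfl⟩)
        rw [Algebra.smul_def] at h5
        exact h5
  choose g hg using fun i => (Submodule.mem_span_range_iff_exists_fun (Kt t)).1 (h3 i)
  refine ⟨p, s, l, u, fun i r => g i (Sum.inl r), fun i k => g i (Sum.inr k), hl, hlli, hder,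
    fun i => ?_⟩
  rw [← hg i, Fintype.sum_sum_type]
  congr 1

/-- a proportional pair contradicts linear independence -/
theorem not_prop {K : IntermediateField ℚ ℂ} {d : ℕ} {x : Fin d → ℂ} (hx : LinearIndependent K x)
    {i j : Fin d} (hij : i ≠ j) {a b : K} (ha : a ≠ 0) (h : (a : ℂ) * x i - (b : ℂ) * x j = 0) :
    False := by
  classical
  have h1 := Fintype.linearIndependent_iff.1 hx (Pi.single i a - Pi.single j b) (by
    simp only [Pi.sub_apply, sub_smul, Finset.sum_sub_distrib]
    have e1 : ∀ (k : Fin d) (c : K), ∑ l, (Pi.single k c : Fin d → K) l • x l = (c : ℂ) * x k := by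
      intro k c
      rw [Finset.sum_eq_single k]
      · rw [Pi.single_eq_same]
        rfl
      · intro l _ hl
        rw [Pi.single_eq_of_ne hl, zero_smul]
      · intro hk
        exact absurd (Finset.mem_univ _) hk
    rw [e1, e1]
    exact h) i
  rw [Pi.sub_apply, Pi.single_eq_same, Pi.single_eq_of_ne hij, sub_zero] at h1
  exact ha h1

/-- the generic part of the products vanishes -/
theorem generic_zero {m : ℕ} {t : Fin m → ℂ} {d e p s : ℕ} (hd : 2 ≤ d) (he : 2 ≤ e)
    {x : Fin d → ℂ} {y : Fin e → ℂ} (hx : LinearIndependent (Kt t) x)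
    (hy : LinearIndependent (Kt t) y) {l : Fin p → ℂ} {u : Fin s → ℂ}
    (hl : ∀ r, IsAlgebraic ℚ (Complex.exp (l r)))
    (hder : ∀ v : Fin s → ℂ, ∃ D : Derivation ℚ ℂ ℂ, (∀ w ∈ Closure.ecl ⊥, D w = 0) ∧
        (∀ j, D (t j) = 0) ∧ ∀ k, D (u k) = v k)
    (c : Fin d × Fin e → Fin (p + 1) → Kt t) (a : Fin d × Fin e → Fin s → Kt t)
    (h : ∀ i, x i.1 * y i.2 = ∑ r, (c i r : ℂ) * (Fin.cons 1 l : Fin (p + 1) → ℂ) r +
        ∑ k, (a i k : ℂ) * u k) : ∀ i k, a i k = 0 := by
  classical
  rintro ⟨P, Q⟩ k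
  by_contra hne
  obtain ⟨D, hD1, hD2, hD3⟩ := hder (fun j => if j = k then 1 else 0)
  have hDK := kills_Kt hD2
  have hDz : ∀ i, D (x i.1 * y i.2) = (a i k : ℂ) := by
    intro i
    rw [h i, map_add, map_sum, map_sum]
    have e1 : ∑ r, D ((c i r : ℂ) * (Fin.cons 1 l : Fin (p + 1) → ℂ) r) = 0 := by
      refine Finset.sum_eq_zero (fun r _ => ?_)
      rw [Derivation.leibniz, hDK _ (c i r).2, hD1 _ (cons_mem_ecl hl r), smul_zero, smul_zero,
        add_zero]
    have e2 : ∀ j, D ((a i j : ℂ) * u j) = if j = k then (a i j : ℂ) else 0 := by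
      intro j
      rw [Derivation.leibniz, hDK _ (a i j).2, hD3, smul_zero, add_zero, smul_eq_mul]
      split_ifs <;> simp
    rw [e1, zero_add, Finset.sum_congr rfl (fun j _ => e2 j)]
    simp
  let B : Fin d → Fin e → ℂ := fun i j => (a (i, j) k : ℂ)
  obtain ⟨Z, hZ⟩ : ∃ Z : Fin d → Fin e → ℂ, ∀ i j, Z i j = x i * y j :=
    ⟨fun i j => x i * y j, fun i j => rfl⟩
  have hDz' : ∀ i j, D (Z i j) = B i j := fun i j => by
    rw [hZ]
    exact hDz (i, j)
  have hDB : ∀ i j, D (B i j) = 0 := fun i j => hDK _ (a (i, j) k).2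
  have h0 : ∀ i i' j j', Z i j * Z i' j' = Z i j' * Z i' j := by
    intro i i' j j'
    simp only [hZ]
    ring
  have h1' : ∀ i i' j j', Z i j * B i' j' + Z i' j' * B i j =
      Z i j' * B i' j + Z i' j * B i j' := by
    intro i i' j j'
    have := congrArg D (h0 i i' j j')
    rw [Derivation.leibniz, Derivation.leibniz, hDz', hDz', hDz', hDz'] at this
    simpa only [smul_eq_mul] using this
  have h2 : ∀ i i' j j', B i j * B i' j' = B i j' * B i' j := by
    intro i i' j j'
    have := congrArg D (h1' i i' j j')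
    rw [map_add, map_add, Derivation.leibniz, Derivation.leibniz, Derivation.leibniz,
      Derivation.leibniz, hDz', hDz', hDz', hDz', hDB, hDB, hDB, hDB] at this
    simp only [smul_eq_mul, mul_zero, zero_add] at this
    linear_combination this / 2
  have h1 : ∀ i i' j j', (x i * y j) * B i' j' + (x i' * y j') * B i j =
      (x i * y j') * B i' j + (x i' * y j) * B i j' := by
    intro i i' j j'
    have := h1' i i' j j'
    simpa only [hZ] using this
  have hB : B P Q ≠ 0 := fun h' => hne (Subtype.ext h')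
  have h3 : ∀ i j, (B P Q * x i - B i Q * x P) * (B P Q * y j - B P j * y Q) = 0 := by
    intro i j
    linear_combination B P Q * h1 P i Q j + (x P * y Q) * h2 P i j Q
  by_cases hA : ∀ i, B P Q * x i - B i Q * x P = 0
  · obtain ⟨i, hi⟩ : ∃ i : Fin d, i ≠ P := by
      have : Nontrivial (Fin d) := Fin.nontrivial_iff_two_le.2 hd
      exact exists_ne P
    exact not_prop hx hi (a := a (P, Q) k) (b := a (i, Q) k) (fun h' => hne h') (hA i)
  · push Not at hA
    obtain ⟨i, hi⟩ := hA
    obtain ⟨j, hj⟩ : ∃ j : Fin e, j ≠ Q := by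
      have : Nontrivial (Fin e) := Fin.nontrivial_iff_two_le.2 he
      exact exists_ne Q
    exact not_prop hy hj (a := a (P, Q) k) (b := a (P, j) k) (fun h' => hne h')
      ((mul_eq_zero.1 (h3 i j)).resolve_left hi)

/-- independent families have dual families -/
theorem dual {K : Type*} [Field K] {d : ℕ} {ν : Type*} [Fintype ν] (C : Fin d → ν → K)
    (hC : LinearIndependent K C) : ∃ G : ν → Fin d → K, ∀ i i', ∑ n, C i n * G n i' =
      if i = i' then 1 else 0 := by
  classical
  let f : (Fin d → K) →ₗ[K] (ν → K) := Fintype.linearCombination K C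
  have hf : LinearMap.ker f = ⊥ := by
    rw [LinearMap.ker_eq_bot']
    intro v hv
    funext i
    exact Fintype.linearIndependent_iff.1 hC v (by
      rw [← hv]
      exact (Fintype.linearCombination_apply K C v).symm) i
  obtain ⟨g, hg⟩ := f.exists_leftInverse_of_injective hf
  refine ⟨fun n i => g (Pi.single n 1) i, fun i i' => ?_⟩
  have h1 : g (C i) = Pi.single i 1 := by
    have h2 := LinearMap.congr_fun hg (Pi.single i 1)
    rw [LinearMap.comp_apply, LinearMap.id_apply] at h2
    rw [← h2]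
    congr 1
    rw [Fintype.linearCombination_apply, Finset.sum_eq_single i]
    · rw [Pi.single_eq_same, one_smul]
    · intro j _ hj
      rw [Pi.single_eq_of_ne hj, zero_smul]
    · intro h
      exact absurd (Finset.mem_univ _) h
  have h3 : C i = ∑ n, C i n • (Pi.single n (1 : K) : ν → K) := by
    funext n
    rw [Finset.sum_apply, Finset.sum_eq_single n]
    · rw [Pi.smul_apply, Pi.single_eq_same, smul_eq_mul, mul_one]
    · intro j _ hj
      rw [Pi.smul_apply, Pi.single_eq_of_ne (Ne.symm hj), smul_zero]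
    · intro h
      exact absurd (Finset.mem_univ _) h
  have h4 := congrFun (congrArg g h3) i'
  rw [h1, map_sum, Finset.sum_apply] at h4
  simp only [map_smul, Pi.smul_apply, smul_eq_mul] at h4
  rw [← h4, Pi.single_apply]
  simp only [eq_comm]

/-- relations are preserved by homomorphisms of the coefficients -/
theorem disj_alg {m : ℕ} {t : Fin m → ℂ} (ht : Generic.Gen ⊥ t) {ι : Type} [Fintype ι]
    (A : Subalgebra QB ℂ) (ψ : A →ₐ[QB] QB) (κ : ι → A) (hκ : ∀ i, (κ i : ℂ) ∈ Kt t)
    (f : ι → ℂ) (hf : ∀ i, f i ∈ Closure.ecl ⊥) (h : ∑ i, (κ i : ℂ) * f i = 0) :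
    ∑ i, (ψ (κ i) : ℂ) * f i = 0 :=
  disj_map (Use.gen_algInd ht) (Subalgebra.toSubmodule A) ψ.toLinearMap κ hκ f hf h

/-- reduction to the algebraic numbers -/
theorem products_of_QB {m : ℕ} {t : Fin m → ℂ} (ht : Generic.Gen ⊥ t) {d e : ℕ} (hd : 2 ≤ d)
    (he : 2 ≤ e) (hP : Products QB d e) : Products (Kt t) d e := by
  classical
  intro x y hx hy
  by_contra hcon
  push Not at hcon
  obtain ⟨p, s, l, u, c, a, hl, hlli, hder, hrep⟩ := decomp ht
    (fun i : Fin d × Fin e => x i.1 * y i.2) (fun i => hcon i.1 i.2)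
  have ha := generic_zero hd he hx hy hl hder c a hrep
  set f : Fin (p + 1) → ℂ := Fin.cons 1 l with hf
  have hrep' : ∀ i j, x i * y j = ∑ r, (c (i, j) r : ℂ) * f r := by
    intro i j
    rw [hrep (i, j)]
    have : ∑ k, (a (i, j) k : ℂ) * u k = 0 :=
      Finset.sum_eq_zero (fun k _ => by rw [ha]; simp)
    rw [this, add_zero]
  have hfE : ∀ r, f r ∈ Closure.ecl ⊥ := cons_mem_ecl hl
  have i0 : Fin d := ⟨0, by omega⟩
  have j0 : Fin e := ⟨0, by omega⟩
  -- independence of the coefficients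
  have hC : LinearIndependent (Kt t) (fun (i : Fin d) (n : Fin e × Fin (p + 1)) => c (i, n.1) n.2) := by
    rw [Fintype.linearIndependent_iff]
    intro g hg
    apply Fintype.linearIndependent_iff.1 hx
    have h1 : ∀ j r, ∑ i, (g i : ℂ) * (c (i, j) r : ℂ) = 0 := by
      intro j r
      have h2 := congrFun hg (j, r)
      rw [Finset.sum_apply] at h2
      have h3 := congrArg (fun w : Kt t => (w : ℂ)) h2
      change ((∑ i, g i • c (i, j) r : Kt t) : ℂ) = ((0 : Kt t) : ℂ) at h3
      rw [IntermediateField.coe_sum, IntermediateField.coe_zero] at h3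
      rw [← h3]
      rfl
    have h4 : (∑ i, g i • x i) * y j0 = 0 := by
      rw [Finset.sum_mul]
      have h5 : ∀ i, g i • x i * y j0 = ∑ r, ((g i : ℂ) * (c (i, j0) r : ℂ)) * f r := by
        intro i
        rw [Algebra.smul_def, mul_assoc, hrep', Finset.mul_sum]
        exact Finset.sum_congr rfl (fun r _ => by rw [mul_assoc]; rfl)
      rw [Finset.sum_congr rfl (fun i _ => h5 i), Finset.sum_comm]
      refine Finset.sum_eq_zero (fun r _ => ?_)
      rw [← Finset.sum_mul, h1, zero_mul]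
    exact (mul_eq_zero.1 h4).resolve_right (hy.ne_zero j0)
  have hC' : LinearIndependent (Kt t) (fun (j : Fin e) (n : Fin d × Fin (p + 1)) => c (n.1, j) n.2) := by
    rw [Fintype.linearIndependent_iff]
    intro g hg
    apply Fintype.linearIndependent_iff.1 hy
    have h1 : ∀ i r, ∑ j, (g j : ℂ) * (c (i, j) r : ℂ) = 0 := by
      intro i r
      have h2 := congrFun hg (i, r)
      rw [Finset.sum_apply] at h2
      have h3 := congrArg (fun w : Kt t => (w : ℂ)) h2
      change ((∑ j, g j • c (i, j) r : Kt t) : ℂ) = ((0 : Kt t) : ℂ) at h3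
      rw [IntermediateField.coe_sum, IntermediateField.coe_zero] at h3
      rw [← h3]
      rfl
    have h4 : x i0 * (∑ j, g j • y j) = 0 := by
      rw [Finset.mul_sum]
      have h5 : ∀ j, x i0 * g j • y j = ∑ r, ((g j : ℂ) * (c (i0, j) r : ℂ)) * f r := by
        intro j
        rw [Algebra.smul_def, mul_left_comm, hrep', Finset.mul_sum]
        exact Finset.sum_congr rfl (fun r _ => by rw [mul_assoc]; rfl)
      rw [Finset.sum_congr rfl (fun i _ => h5 i), Finset.sum_comm]
      refine Finset.sum_eq_zero (fun r _ => ?_)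
      rw [← Finset.sum_mul, h1, zero_mul]
    exact (mul_eq_zero.1 h4).resolve_left (hx.ne_zero i0)
  obtain ⟨G, hG⟩ := dual _ hC
  obtain ⟨H, hH⟩ := dual _ hC'
  -- the algebra of the coefficients
  let S : Finset ℂ := (Finset.univ.image (fun n : (Fin d × Fin e) × Fin (p + 1) => (c n.1 n.2 : ℂ))) ∪
    ((Finset.univ.image (fun n : (Fin e × Fin (p + 1)) × Fin d => (G n.1 n.2 : ℂ))) ∪
      (Finset.univ.image (fun n : (Fin d × Fin (p + 1)) × Fin e => (H n.1 n.2 : ℂ))))
  obtain ⟨ψ⟩ := exists_hom S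
  let c' : Fin d → Fin e → Fin (p + 1) → Algebra.adjoin QB (S : Set ℂ) := fun i j r =>
    ⟨(c (i, j) r : ℂ), Algebra.subset_adjoin (Finset.mem_union_left _
      (Finset.mem_image_of_mem _ (Finset.mem_univ ((i, j), r))))⟩
  let G' : Fin e → Fin (p + 1) → Fin d → Algebra.adjoin QB (S : Set ℂ) := fun j r i =>
    ⟨(G (j, r) i : ℂ), Algebra.subset_adjoin (Finset.mem_union_right _ (Finset.mem_union_left _
      (Finset.mem_image_of_mem _ (Finset.mem_univ ((j, r), i)))))⟩
  let H' : Fin d → Fin (p + 1) → Fin e → Algebra.adjoin QB (S : Set ℂ) := fun i r j =>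
    ⟨(H (i, r) j : ℂ), Algebra.subset_adjoin (Finset.mem_union_right _ (Finset.mem_union_right _
      (Finset.mem_image_of_mem _ (Finset.mem_univ ((i, r), j)))))⟩
  have hG' : ∀ i i', ∑ j, ∑ r, ψ (c' i j r) * ψ (G' j r i') = if i = i' then 1 else 0 := by
    intro i i'
    have h1 : ∑ j, ∑ r, c' i j r * G' j r i' = if i = i' then 1 else 0 := by
      apply Subtype.ext
      have h2 := congrArg (fun w : Kt t => (w : ℂ)) (hG i i')
      change ((∑ n : Fin e × Fin (p + 1), c (i, n.1) n.2 * G n i' : Kt t) : ℂ) =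
        ((if i = i' then 1 else 0 : Kt t) : ℂ) at h2
      rw [Fintype.sum_prod_type] at h2
      push_cast at h2 ⊢
      rw [show ((if i = i' then 1 else 0 : Algebra.adjoin QB (S : Set ℂ)) : ℂ) =
        if i = i' then 1 else 0 by split_ifs <;> rfl]
      rw [show ((if i = i' then 1 else 0 : Kt t) : ℂ) =
        if i = i' then 1 else 0 by split_ifs <;> rfl] at h2
      exact h2
    have h3 := congrArg ψ h1
    rw [map_sum] at h3
    simp only [map_sum, map_mul] at h3
    rw [h3]
    split_ifs <;> simp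
  have hH' : ∀ j j', ∑ i, ∑ r, ψ (c' i j r) * ψ (H' i r j') = if j = j' then 1 else 0 := by
    intro j j'
    have h1 : ∑ i, ∑ r, c' i j r * H' i r j' = if j = j' then 1 else 0 := by
      apply Subtype.ext
      have h2 := congrArg (fun w : Kt t => (w : ℂ)) (hH j j')
      change ((∑ n : Fin d × Fin (p + 1), c (n.1, j) n.2 * H n j' : Kt t) : ℂ) =
        ((if j = j' then 1 else 0 : Kt t) : ℂ) at h2
      rw [Fintype.sum_prod_type] at h2
      push_cast at h2 ⊢
      rw [show ((if j = j' then 1 else 0 : Algebra.adjoin QB (S : Set ℂ)) : ℂ) =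
        if j = j' then 1 else 0 by split_ifs <;> rfl]
      rw [show ((if j = j' then 1 else 0 : Kt t) : ℂ) =
        if j = j' then 1 else 0 by split_ifs <;> rfl] at h2
      exact h2
    have h3 := congrArg ψ h1
    rw [map_sum] at h3
    simp only [map_sum, map_mul] at h3
    rw [h3]
    split_ifs <;> simp
  -- the new products
  let Z : Fin d → Fin e → ℂ := fun i j => ∑ r, (ψ (c' i j r) : ℂ) * f r
  have hZ : ∀ i i' j j', Z i j * Z i' j' = Z i j' * Z i' j := by
    intro i i' j j'
    have h1 := disj_alg ht (Algebra.adjoin QB (S : Set ℂ)) ψ (ι := Fin (p + 1) × Fin (p + 1))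
      (fun n => c' i j n.1 * c' i' j' n.2 - c' i j' n.1 * c' i' j n.2) (by
        intro n
        change (c (i, j) n.1 : ℂ) * (c (i', j') n.2 : ℂ) -
          (c (i, j') n.1 : ℂ) * (c (i', j) n.2 : ℂ) ∈ Kt t
        exact sub_mem (mul_mem (Subtype.property _) (Subtype.property _))
          (mul_mem (Subtype.property _) (Subtype.property _)))
      (fun n => f n.1 * f n.2) (fun n => mul_mem (hfE _) (hfE _)) (by
        have e1 : ∀ i i' j j', (x i * y j) * (x i' * y j') =
            ∑ n : Fin (p + 1) × Fin (p + 1), ((c (i, j) n.1 : ℂ) * (c (i', j') n.2 : ℂ)) *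
              (f n.1 * f n.2) := by
          intro i i' j j'
          rw [hrep', hrep', Finset.sum_mul_sum, Fintype.sum_prod_type]
          exact Finset.sum_congr rfl (fun _ _ => Finset.sum_congr rfl (fun _ _ => by ring))
        have e2 : (x i * y j) * (x i' * y j') - (x i * y j') * (x i' * y j) = 0 := by ring
        rw [e1, e1, ← Finset.sum_sub_distrib] at e2
        rw [← e2]
        refine Finset.sum_congr rfl (fun n _ => ?_)
        rw [← sub_mul]
        rfl)
    have e3 : ∀ i i' j j', Z i j * Z i' j' =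
        ∑ n : Fin (p + 1) × Fin (p + 1), ((ψ (c' i j n.1) : ℂ) * (ψ (c' i' j' n.2) : ℂ)) *
          (f n.1 * f n.2) := by
      intro i i' j j'
      rw [Finset.sum_mul_sum, Fintype.sum_prod_type]
      exact Finset.sum_congr rfl (fun _ _ => Finset.sum_congr rfl (fun _ _ => by ring))
    rw [← sub_eq_zero, e3, e3, ← Finset.sum_sub_distrib, ← h1]
    refine Finset.sum_congr rfl (fun n _ => ?_)
    rw [← sub_mul]
    congr 1
    rw [map_sub, map_mul, map_mul]
    rfl
  have hZB : ∀ (α : Fin (p + 1) → ℂ), (∀ r, α r ∈ QB) → ∑ r, α r * f r = 0 → ∀ r, α r = 0 :=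
    fun α hα h => baker_QB hl hlli α hα h
  -- a nonzero product
  obtain ⟨P, Q, hPQ⟩ : ∃ P Q, Z P Q ≠ 0 := by
    by_contra hcon
    push Not at hcon
    have h1 : ∀ i j r, ψ (c' i j r) = 0 := by
      intro i j r
      have := hZB (fun r => (ψ (c' i j r) : ℂ)) (fun r => (ψ (c' i j r)).2) (hcon i j) r
      exact Subtype.ext this
    have h2 := hG' i0 i0
    simp [h1] at h2
  have hx' : LinearIndependent QB (fun i => Z i Q) := by
    rw [Fintype.linearIndependent_iff]
    intro α hα
    have h1 : ∀ j, ∑ i, (α i : ℂ) * Z i j = 0 := by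
      intro j
      have h2 : Z P Q * ∑ i, (α i : ℂ) * Z i j = Z P j * ∑ i, α i • Z i Q := by
        rw [Finset.mul_sum, Finset.mul_sum]
        refine Finset.sum_congr rfl (fun i _ => ?_)
        rw [Algebra.smul_def]
        change _ = _ * ((α i : ℂ) * _)
        linear_combination (α i : ℂ) * hZ P i Q j
      rw [hα, mul_zero] at h2
      exact (mul_eq_zero.1 h2).resolve_left hPQ
    have h3 : ∀ j r, ∑ i, α i * ψ (c' i j r) = 0 := by
      intro j r
      have h4 := hZB (fun r => ∑ i, (α i : ℂ) * (ψ (c' i j r) : ℂ))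
        (fun r => sum_mem (fun i _ => mul_mem (α i).2 (Subtype.property _))) (by
          rw [← h1 j]
          simp only [Finset.sum_mul, Z, Finset.mul_sum]
          rw [Finset.sum_comm]
          exact Finset.sum_congr rfl (fun _ _ => Finset.sum_congr rfl (fun _ _ => by ring))) r
      apply Subtype.ext
      rw [IntermediateField.coe_sum, IntermediateField.coe_zero, ← h4]
      rfl
    intro i'
    have h5 : ∑ i, α i * ∑ j, ∑ r, ψ (c' i j r) * ψ (G' j r i') = α i' := by
      simp only [hG']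
      simp
    rw [← h5]
    calc ∑ i, α i * ∑ j, ∑ r, ψ (c' i j r) * ψ (G' j r i')
        = ∑ j, ∑ r, (∑ i, α i * ψ (c' i j r)) * ψ (G' j r i') := by
          simp only [Finset.mul_sum, Finset.sum_mul]
          rw [Finset.sum_comm]
          refine Finset.sum_congr rfl (fun j _ => ?_)
          rw [Finset.sum_comm]
          exact Finset.sum_congr rfl (fun _ _ => Finset.sum_congr rfl (fun _ _ => by ring))
      _ = 0 := by
          simp only [h3, zero_mul, Finset.sum_const_zero]
  have hy' : LinearIndependent QB (fun j => Z P j / Z P Q) := by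
    rw [Fintype.linearIndependent_iff]
    intro α hα
    have hα' : ∑ j, (α j : ℂ) * Z P j = 0 := by
      have h2 : ∑ j, α j • (Z P j / Z P Q) = (∑ j, (α j : ℂ) * Z P j) / Z P Q := by
        rw [Finset.sum_div]
        refine Finset.sum_congr rfl (fun j _ => ?_)
        rw [Algebra.smul_def]
        change (α j : ℂ) * _ = _
        ring
      rw [h2, div_eq_zero_iff] at hα
      exact hα.resolve_right hPQ
    have h1 : ∀ i, ∑ j, (α j : ℂ) * Z i j = 0 := by
      intro i
      have h2 : Z P Q * ∑ j, (α j : ℂ) * Z i j = Z i Q * ∑ j, (α j : ℂ) * Z P j := by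
        rw [Finset.mul_sum, Finset.mul_sum]
        refine Finset.sum_congr rfl (fun j _ => ?_)
        linear_combination (α j : ℂ) * hZ P i Q j
      rw [hα', mul_zero] at h2
      exact (mul_eq_zero.1 h2).resolve_left hPQ
    have h3 : ∀ i r, ∑ j, α j * ψ (c' i j r) = 0 := by
      intro i r
      have h4 := hZB (fun r => ∑ j, (α j : ℂ) * (ψ (c' i j r) : ℂ))
        (fun r => sum_mem (fun j _ => mul_mem (α j).2 (Subtype.property _))) (by
          rw [← h1 i]
          simp only [Finset.sum_mul, Z, Finset.mul_sum]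
          rw [Finset.sum_comm]
          exact Finset.sum_congr rfl (fun _ _ => Finset.sum_congr rfl (fun _ _ => by ring))) r
      apply Subtype.ext
      rw [IntermediateField.coe_sum, IntermediateField.coe_zero, ← h4]
      rfl
    intro j'
    have h5 : ∑ j, α j * ∑ i, ∑ r, ψ (c' i j r) * ψ (H' i r j') = α j' := by
      simp only [hH']
      simp
    rw [← h5]
    calc ∑ j, α j * ∑ i, ∑ r, ψ (c' i j r) * ψ (H' i r j')
        = ∑ i, ∑ r, (∑ j, α j * ψ (c' i j r)) * ψ (H' i r j') := by
          simp only [Finset.mul_sum, Finset.sum_mul]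
          rw [Finset.sum_comm]
          refine Finset.sum_congr rfl (fun j _ => ?_)
          rw [Finset.sum_comm]
          exact Finset.sum_congr rfl (fun _ _ => Finset.sum_congr rfl (fun _ _ => by ring))
      _ = 0 := by
          simp only [h3, zero_mul, Finset.sum_const_zero]
  obtain ⟨i, j, hij⟩ := hP _ _ hx' hy'
  apply hij
  have h6 : Z i Q * (Z P j / Z P Q) = Z i j := by
    rw [mul_div_assoc', div_eq_iff hPQ]
    linear_combination hZ i P Q j
  rw [h6]
  refine sum_mem (fun r _ => ?_)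
  have h7 : f r ∈ Lin QB := by
    apply Submodule.subset_span
    refine Fin.cases ?_ (fun r => ?_) r
    · left
      rfl
    · right
      exact mem_QB.2 (hl r)
  have h8 := (Lin QB).smul_mem (ψ (c' i j r)) h7
  rw [Algebra.smul_def] at h8
  exact h8

theorem Lin_le {K K' : IntermediateField ℚ ℂ} (h : K ≤ K') {w : ℂ} (hw : w ∈ Lin K) : w ∈ Lin K' := by
  induction hw using Submodule.span_induction with
  | mem a ha =>
    apply Submodule.subset_span
    rcases ha with ha | ha
    · exact Or.inl ha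
    · exact Or.inr (h ha)
  | zero => exact zero_mem _
  | add a b _ _ iha ihb => exact add_mem iha ihb
  | smul c a _ iha =>
    have h1 := (Lin K').smul_mem (⟨(c : ℂ), h c.2⟩ : K') iha
    rw [Algebra.smul_def] at h1 ⊢
    exact h1

theorem Lin_QB_ecl {w : ℂ} (hw : w ∈ Lin QB) : w ∈ Closure.ecl ⊥ := by
  induction hw using Submodule.span_induction with
  | mem a ha =>
    rcases ha with ha | ha
    · rw [mem_singleton_iff] at ha
      rw [ha]
      exact one_mem _
    · exact Closure.log_mem (QB_le_ecl ha)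
  | zero => exact zero_mem _
  | add a b _ _ iha ihb => exact add_mem iha ihb
  | smul c a _ iha =>
    rw [Algebra.smul_def]
    exact mul_mem (QB_le_ecl c.2) iha

theorem indep_up {m : ℕ} {t : Fin m → ℂ} (ht : Generic.Gen ⊥ t) {d : ℕ} {x : Fin d → ℂ}
    (hx : LinearIndependent QB x) {y : ℂ} (hy : y ≠ 0) (hxy : ∀ i, x i * y ∈ Closure.ecl ⊥) :
    LinearIndependent (Kt t) x := by
  rw [Fintype.linearIndependent_iff]
  intro g hg i
  apply Subtype.ext
  refine disj (Use.gen_algInd ht) Finset.univ (fun i => (g i : ℂ)) (fun i => x i * y)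
    (fun i _ => (g i).2) (fun i _ => hxy i) ?_ ?_ i (Finset.mem_univ i)
  · intro c hc h i _
    have h1 : ∑ i, (⟨c i, hc i (Finset.mem_univ i)⟩ : QB) • x i = 0 := by
      have h2 : (∑ i, (⟨c i, hc i (Finset.mem_univ i)⟩ : QB) • x i) * y = 0 := by
        rw [Finset.sum_mul, ← h]
        refine Finset.sum_congr rfl (fun i _ => ?_)
        rw [Algebra.smul_def, mul_assoc]
        rfl
      exact (mul_eq_zero.1 h2).resolve_right hy
    exact congrArg (fun w : QB => (w : ℂ)) (Fintype.linearIndependent_iff.1 hx _ h1 i)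
  · have h2 : (∑ i, g i • x i) * y = 0 := by rw [hg, zero_mul]
    rw [Finset.sum_mul] at h2
    rw [← h2]
    refine Finset.sum_congr rfl (fun i _ => ?_)
    rw [Algebra.smul_def, mul_assoc]
    rfl

theorem QB_of_products {m : ℕ} {t : Fin m → ℂ} (ht : Generic.Gen ⊥ t) {d e : ℕ} (hd : 2 ≤ d)
    (he : 2 ≤ e) (hP : Products (Kt t) d e) : Products QB d e := by
  intro x y hx hy
  by_contra hcon
  push Not at hcon
  have hE : ∀ i j, x i * y j ∈ Closure.ecl ⊥ := fun i j => Lin_QB_ecl (hcon i j)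
  have i0 : Fin d := ⟨0, by omega⟩
  have j0 : Fin e := ⟨0, by omega⟩
  obtain ⟨i, j, hij⟩ := hP x y (indep_up ht hx (hy.ne_zero j0) (fun i => hE i j0))
    (indep_up ht hy (hx.ne_zero i0) (fun j => by rw [mul_comm]; exact hE i0 j))
  exact hij (Lin_le (QB_le t) (hcon i j))

/-- the strong six exponentials theorem -/
theorem six_QB : Products QB 2 3 := by
  intro x y hx hy
  by_contra hcon
  push Not at hcon
  refine Pool.Agent.H301R2.SSE.strong_six x y ?_ ?_ ?_
  · intro a b ha hb hab
    have h1 := Fintype.linearIndependent_iff.1 hx ![⟨a, mem_QB.2 ha⟩, ⟨b, mem_QB.2 hb⟩] (by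
      rw [Fin.sum_univ_two, ← hab]
      rfl)
    exact ⟨congrArg (fun w : QB => (w : ℂ)) (h1 0), congrArg (fun w : QB => (w : ℂ)) (h1 1)⟩
  · intro c hc hsum j
    have h1 := Fintype.linearIndependent_iff.1 hy (fun j => ⟨c j, mem_QB.2 (hc j)⟩) (by
      rw [← hsum]
      rfl) j
    exact congrArg (fun w : QB => (w : ℂ)) h1
  · intro i j
    have h1 := hcon i j
    have h2 : Pool.Agent.H301R2.SSE.Lt = Lin QB := by
      unfold Pool.Agent.H301R2.SSE.Lt Lin
      congr 2
      ext w
      exact mem_QB.symm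
    rw [h2]
    exact h1

theorem good_of_gen {m : ℕ} {t : Fin m → ℂ} (ht : Generic.Gen ⊥ t) : Good t where
  baker := baker_of_gen ht
  six := products_of_QB ht le_rfl (by norm_num) six_QB
  products := fun _ _ hd he => ⟨QB_of_products ht hd he, products_of_QB ht hd he⟩

/-- `t` is not good if a coordinate is `log 2` -/
theorem not_good {m : ℕ} (t : Fin m → ℂ) (j : Fin m) (hj : t j = ((Real.log 2 : ℝ) : ℂ)) :
    ¬ Good t := by
  intro h
  have hmem : t j ∈ Kt t := mem_Kt.2
    (isAlgebraic_algebraMap (⟨t j, IntermediateField.subset_adjoin ℚ _ ⟨j, rfl⟩⟩ :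
      IntermediateField.adjoin ℚ (range t)))
  have hexp : Complex.exp (t j) = 2 := by
    rw [hj, ← Complex.ofReal_exp, Real.exp_log (by norm_num)]
    norm_num
  have hne : t j ≠ 0 := by
    rw [hj]
    exact_mod_cast (Real.log_pos (by norm_num : (1 : ℝ) < 2)).ne'
  have h1 := h.baker 1 (fun _ => t j) (fun _ => by
    change Complex.exp (t j) ∈ Kt t
    rw [hexp]
    exact (Kt t).natCast_mem 2) ((linearIndependent_unique_iff (v := fun _ : Fin 1 => t j)).2 hne)
  have h2 := Fintype.linearIndependent_iff.1 h1 ![⟨t j, hmem⟩, -1] (by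
    rw [Fin.sum_univ_two]
    change (t j : ℂ) * 1 + ((-1 : Kt t) : ℂ) * t j = 0
    push_cast
    ring) 1
  have h3 := congrArg (fun w : Kt t => (w : ℂ)) h2
  change ((-1 : Kt t) : ℂ) = ((0 : Kt t) : ℂ) at h3
  push_cast at h3
  norm_num at h3

theorem dim_good (m : ℕ) : dimH {t : Fin (m + 1) → ℂ | ¬ Good t} = ((2 * m : ℕ) : ℝ≥0∞) := by
  apply le_antisymm
  · have h1 := Generic.dimH_bad Dict.countable_bot (m + 1)
    refine (dimH_mono ?_).trans h1
    exact fun t ht hg => ht (good_of_gen hg)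
  · let P : (Fin (m + 1) → ℂ) →L[ℂ] (Fin m → ℂ) :=
      ContinuousLinearMap.pi (fun j => ContinuousLinearMap.proj j.succ)
    have h1 : (univ : Set (Fin m → ℂ)) ⊆ P '' {t : Fin (m + 1) → ℂ | ¬ Good t} := by
      intro v _
      exact ⟨Fin.cons ((Real.log 2 : ℝ) : ℂ) v, not_good _ 0 rfl, by
        funext j
        rfl⟩
    have h2 := Real.dimH_univ_eq_finrank (Fin m → ℂ)
    have h3 : finrank ℝ (Fin m → ℂ) = 2 * m := by
      rw [finrank_real_of_complex, finrank_fintype_fun_eq_card, Fintype.card_fin]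
    rw [h3] at h2
    rw [← h2]
    exact (dimH_mono h1).trans (P.lipschitz.dimH_image_le _)

/-- **Main result.** (1) For `m ≥ 1` the set of the points `t` of `ℂᵐ` which are not good has Hausdorff
dimension exactly `2 m - 2`. (2) For `m = 1` it is countable. -/
theorem result :
    (∀ m : ℕ, 1 ≤ m → dimH {t : Fin m → ℂ | ¬ Good t} = ((2 * m - 2 : ℕ) : ℝ≥0∞)) ∧
    {t : Fin 1 → ℂ | ¬ Good t}.Countable := by
  refine ⟨fun m hm => ?_, ?_⟩
  · obtain ⟨k, rfl⟩ : ∃ k, m = k + 1 := ⟨m - 1, by omega⟩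
    rw [dim_good, show 2 * (k + 1) - 2 = 2 * k by omega]
  · exact (Generic.countable_bad Dict.countable_bot).mono (fun t ht hg => ht (good_of_gen hg))

end Pool.Agent.Results.MP_60829e_nt.BakerSixExponentials
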