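import Mathlib
import Pool.Agent.Helper78.EC.Use

/-!
# Logarithms over generic fields

The conjecture on the algebraic independence of logarithms of algebraic numbers is compared with the
same statement for the logarithms of the elements of a field `F` of complex numbers: are `ℚ`-linearly
independent numbers `l_1, …, l_n` with `e^{l_i} ∈ F` algebraically independent over `F`?  This is false
for some fields, but for `F` the algebraic closure of `ℚ(t_1, …, t_m)` with `t` outside of a set of
Hausdorff dimension exactly `2 m - 2` of `ℂᵐ` (a countable set for `m = 1`) it is equivalent to the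
conjecture, and the only possible exceptions come from the logarithms of algebraic numbers.
-/

set_option autoImplicit false

namespace Pool.Agent.Results.MP_60829e_nt.GenericFields

open Module Set Pool.Agent.Helper78.SC Pool.Agent.Helper78.EC
open scoped ENNReal

/-- The logarithms of the nonzero algebraic numbers, a vector space over `ℚ`. -/
def Logs : Submodule ℚ ℂ where
  carrier := {l | IsAlgebraic ℚ (Complex.exp l)}
  add_mem' := by
    intro a b ha hb
    rw [mem_ofPred_eq, Complex.exp_add]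
    exact IsAlgebraic.mul ha hb
  zero_mem' := by
    rw [mem_ofPred_eq, Complex.exp_zero]
    exact isAlgebraic_one
  smul_mem' := by
    intro q l hl
    rw [mem_ofPred_eq, Rat.smul_def]
    exact Use.exp_rat hl q

/-- The field `ℚ(t_1, …, t_m)`. -/
noncomputable abbrev Fld {m : ℕ} (t : Fin m → ℂ) : IntermediateField ℚ ℂ :=
  IntermediateField.adjoin ℚ (range t)

/-- The point `t` is good, if `t_1, …, t_m` are algebraically independent over `ℚ(Logs)`, and if any
numbers `l_1, …, l_n` which are linearly independent over `ℚ` modulo `Logs` and whose exponentials are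
algebraic over `ℚ(t)` are algebraically independent over `ℚ(t, Logs)`. -/
def Good {m : ℕ} (t : Fin m → ℂ) : Prop :=
  AlgebraicIndependent (IntermediateField.adjoin ℚ (Logs : Set ℂ)) t ∧
  ∀ (n : ℕ) (l : Fin n → ℂ), (∀ i, IsAlgebraic (Fld t) (Complex.exp (l i))) →
    (∀ q : Fin n → ℚ, ∑ i, (q i : ℂ) * l i ∈ Logs → q = 0) →
    AlgebraicIndependent (IntermediateField.adjoin ℚ (range t ∪ Logs)) l

/-- The conjecture for at most `h` logarithms of algebraic numbers. -/
def Conjecture (h : ℕ) : Prop :=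
  ∀ n ≤ h, ∀ l : Fin n → ℂ, (∀ i, l i ∈ Logs) → LinearIndependent ℚ l → AlgebraicIndependent ℚ l

/-- The conjecture over the field `ℚ(t)` for all tuples of logarithms whose span contains at most `h`
linearly independent logarithms of algebraic numbers. -/
def ConjectureOver {m : ℕ} (t : Fin m → ℂ) (h : ℕ) : Prop :=
  ∀ (n : ℕ) (l : Fin n → ℂ), (∀ i, IsAlgebraic (Fld t) (Complex.exp (l i))) →
    LinearIndependent ℚ l → finrank ℚ ↥(Submodule.span ℚ (range l) ⊓ Logs) ≤ h →
    AlgebraicIndependent (Fld t) l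

theorem countable_bot : Countable (⊥ : IntermediateField ℚ ℂ) :=
  Countable.of_equiv ℚ (IntermediateField.botEquiv ℚ ℂ).symm.toEquiv

theorem logs_le {x : ℂ} (hx : x ∈ Logs) : x ∈ Closure.ecl ⊥ := by
  apply Closure.log_mem
  apply Closure.alg_mem
  exact IsAlgebraic.tower_top _ (show IsAlgebraic ℚ (Complex.exp x) from hx)

theorem good_of_gen {m : ℕ} {t : Fin m → ℂ} (ht : Generic.Gen ⊥ t) : Good t := by
  constructor
  · apply Use.algInd_of_der
    intro v
    obtain ⟨D, hD1, hD2⟩ := Use.exists_der (Use.gen_algInd ht) v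
    exact ⟨D, Use.kills_adjoin (fun x hx => hD1 x (logs_le hx)), hD2⟩
  · intro n l hl hq
    have h1 := Use.log_algInd ht hl (fun q hq' => hq q hq')
    apply Use.algInd_of_der
    intro v
    obtain ⟨D, hD1, hD2⟩ := Use.exists_der h1 (Sum.elim 0 v)
    refine ⟨D, Use.kills_adjoin ?_, fun s => hD2 (Sum.inr s)⟩
    rintro x (⟨j, rfl⟩ | hx)
    · exact hD2 (Sum.inl j)
    · exact hD1 x (logs_le hx)

/-- Hermite and Lindemann -/
theorem lindemann {l : ℂ} (hl : l ∈ Logs) (h0 : l ≠ 0) : Transcendental ℚ l := by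
  intro h
  have h4 := Pool.Agent.H327R2.SC.lw_algInd (fun _ : Fin 1 => l) (fun _ => h)
    ((linearIndependent_unique_iff (v := fun _ : Fin 1 => l)).2 h0)
  exact ((algebraicIndependent_unique_type_iff).1 h4) hl

theorem conjecture_one : Conjecture 1 := by
  intro n hn l hl hli
  rcases Nat.le_one_iff_eq_zero_or_eq_one.1 hn with rfl | rfl
  · exact algebraicIndependent_empty_type_iff.2 (algebraMap ℚ ℂ).injective
  · exact algebraicIndependent_unique_type_iff.2 (lindemann (hl 0) (hli.ne_zero 0))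

/-- `t` is not good if the first coordinate is `e` -/
theorem not_good {m : ℕ} (t : Fin m → ℂ) (j : Fin m) (hj : t j = Complex.exp 1) : ¬ Good t := by
  intro h
  have h1 := h.2 1 (fun _ => 1) (fun _ => by
    rw [← hj]
    exact isAlgebraic_algebraMap (⟨t j, IntermediateField.subset_adjoin ℚ _ ⟨j, rfl⟩⟩ : Fld t)) (by
    intro q hq
    rw [Fin.sum_univ_one, mul_one] at hq
    by_contra hcon
    have h2 : q 0 ≠ 0 := fun h0 => hcon (funext fun i => by rw [Subsingleton.elim i 0, h0]; rfl)
    have h3 : ((q 0 : ℚ) : ℂ) ≠ 0 := by exact_mod_cast h2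
    exact lindemann hq h3 (isAlgebraic_algebraMap (q 0)))
  have h2 := algebraicIndependent_unique_type_iff.1 h1
  exact h2 isAlgebraic_one

theorem dim_good (m : ℕ) : dimH {t : Fin (m + 1) → ℂ | ¬ Good t} = ((2 * m : ℕ) : ℝ≥0∞) := by
  apply le_antisymm
  · have h1 := Generic.dimH_bad countable_bot (m + 1)
    refine (dimH_mono ?_).trans h1
    exact fun t ht hg => ht (good_of_gen hg)
  · let P : (Fin (m + 1) → ℂ) →L[ℂ] (Fin m → ℂ) :=
      ContinuousLinearMap.pi (fun j => ContinuousLinearMap.proj j.succ)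
    have h1 : (univ : Set (Fin m → ℂ)) ⊆ P '' {t : Fin (m + 1) → ℂ | ¬ Good t} := by
      intro v _
      exact ⟨Fin.cons (Complex.exp 1) v, not_good _ 0 rfl, by
        funext j
        rfl⟩
    have h2 := Real.dimH_univ_eq_finrank (Fin m → ℂ)
    have h3 : finrank ℝ (Fin m → ℂ) = 2 * m := by
      rw [finrank_real_of_complex, finrank_fintype_fun_eq_card, Fintype.card_fin]
    rw [h3] at h2
    rw [← h2]
    exact (dimH_mono h1).trans (P.lipschitz.dimH_image_le _)

/-- a derivation with given values on the logarithms -/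
theorem exists_der {m : ℕ} {t : Fin m → ℂ} (ht : Good t) {h : ℕ} (hC : Conjecture h)
    (W : Submodule ℚ ℂ) [FiniteDimensional ℚ W]
    (hWalg : ∀ x ∈ W, IsAlgebraic (Fld t) (Complex.exp x)) (hfin : finrank ℚ ↥(W ⊓ Logs) ≤ h)
    (φ : W →ₗ[ℚ] ℂ) :
    ∃ D : Derivation ℚ ℂ ℂ, (∀ w ∈ Fld t, D w = 0) ∧ ∀ x : W, D x = φ x := by
  let W₀ : Submodule ℚ W := Logs.comap W.subtype
  obtain ⟨W₁, hc⟩ := W₀.exists_isCompl
  let b₀ := finBasis ℚ W₀
  let b₁ := finBasis ℚ W₁
  have hdim : finrank ℚ W₀ ≤ h := by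
    refine le_trans ?_ hfin
    have h1 : W₀.map W.subtype = W ⊓ Logs := by
      rw [Submodule.map_comap_subtype]
    rw [← h1, Submodule.finrank_map_subtype_eq]
  -- the logarithms of the algebraic numbers
  have h0 : AlgebraicIndependent ℚ (fun i => ((b₀ i : W) : ℂ)) := by
    apply hC _ hdim
    · exact fun i => (b₀ i).2
    · exact (b₀.linearIndependent.map' W₀.subtype (Submodule.ker_subtype _)).map' W.subtype
        (Submodule.ker_subtype _)
  obtain ⟨D₀, hD₀⟩ := Pool.Agent.H135R2.VS.exists_der h0 (fun i => φ (b₀ i))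
  have h1 := ht.2 (finrank ℚ W₁) (fun i => ((b₁ i : W) : ℂ)) (fun i => hWalg _ (b₁ i : W).2) (by
    intro q hq
    have h2 : (∑ i, q i • b₁ i : W₁) = 0 := by
      have h3 : ((∑ i, q i • b₁ i : W₁) : W) ∈ W₀ := by
        change (((∑ i, q i • b₁ i : W₁) : W) : ℂ) ∈ Logs
        have h4 : (((∑ i, q i • b₁ i : W₁) : W) : ℂ) = ∑ i, (q i : ℂ) * ((b₁ i : W) : ℂ) := by
          rw [Submodule.coe_sum, Submodule.coe_sum]
          exact Finset.sum_congr rfl (fun i _ => Rat.smul_def _ _)
        rw [h4]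
        exact hq
      exact Subtype.ext (Submodule.disjoint_def.1 hc.disjoint _ h3 (∑ i, q i • b₁ i : W₁).2)
    exact funext (Fintype.linearIndependent_iff.1 b₁.linearIndependent q h2))
  obtain ⟨D₂, hD₂, hD₂t⟩ := Use.exists_der ht.1 (fun j => D₀ (t j))
  obtain ⟨D₁, hD₁, hD₁l⟩ := Use.exists_der h1 (fun i => φ (b₁ i) - D₀ (b₁ i : W) + D₂ (b₁ i : W))
  refine ⟨D₀ - D₂ + D₁, ?_, ?_⟩
  · apply Use.kills_adjoin
    rintro _ ⟨j, rfl⟩
    rw [Derivation.add_apply, Derivation.sub_apply, hD₂t, sub_self, zero_add]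
    exact hD₁ _ (IntermediateField.subset_adjoin ℚ _ (Or.inl ⟨j, rfl⟩))
  · let ψ : W →ₗ[ℚ] ℂ := ((D₀ - D₂ + D₁ : Derivation ℚ ℂ ℂ) : ℂ →ₗ[ℚ] ℂ) ∘ₗ W.subtype
    have hψ : ∀ x : W, ψ x = (D₀ - D₂ + D₁ : Derivation ℚ ℂ ℂ) x := fun x => rfl
    have e0 : ψ ∘ₗ W₀.subtype = φ ∘ₗ W₀.subtype := by
      apply b₀.ext
      intro i
      change (D₀ - D₂ + D₁ : Derivation ℚ ℂ ℂ) ((b₀ i : W) : ℂ) = φ (b₀ i)
      have hi : ((b₀ i : W) : ℂ) ∈ (Logs : Set ℂ) := (b₀ i).2
      rw [Derivation.add_apply, Derivation.sub_apply, hD₀,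
        hD₂ _ (IntermediateField.subset_adjoin ℚ _ hi),
        hD₁ _ (IntermediateField.subset_adjoin ℚ _ (Or.inr hi)), sub_zero, add_zero]
    have e1 : ψ ∘ₗ W₁.subtype = φ ∘ₗ W₁.subtype := by
      apply b₁.ext
      intro i
      change (D₀ - D₂ + D₁ : Derivation ℚ ℂ ℂ) ((b₁ i : W) : ℂ) = φ (b₁ i)
      rw [Derivation.add_apply, Derivation.sub_apply, hD₁l]
      ring
    intro x
    have hx : x ∈ W₀ ⊔ W₁ := by
      rw [hc.sup_eq_top]
      trivial
    obtain ⟨a, ha, b, hb, rfl⟩ := Submodule.mem_sup.1 hx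
    rw [← hψ, map_add, map_add]
    congr 1
    · exact LinearMap.congr_fun e0 ⟨a, ha⟩
    · exact LinearMap.congr_fun e1 ⟨b, hb⟩

theorem over_of {m : ℕ} {t : Fin m → ℂ} (ht : Good t) {h : ℕ} (hC : Conjecture h) :
    ConjectureOver t h := by
  intro n l hl hli hfin
  have hWfin : FiniteDimensional ℚ (Submodule.span ℚ (range l)) :=
    FiniteDimensional.span_of_finite ℚ (finite_range l)
  have hWalg : ∀ x ∈ Submodule.span ℚ (range l), IsAlgebraic (Fld t) (Complex.exp x) := by
    intro x hx
    obtain ⟨q, rfl⟩ := (Submodule.mem_span_range_iff_exists_fun ℚ).1 hx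
    have := Use.exp_sum hl q
    simpa only [Rat.smul_def] using this
  apply Use.algInd_of_der
  intro v
  obtain ⟨D, hD1, hD2⟩ := exists_der ht hC _ hWalg hfin ((Basis.span hli).constr ℚ v)
  refine ⟨D, hD1, fun i => ?_⟩
  have h1 := hD2 (Basis.span hli i)
  rw [Basis.constr_basis, Basis.span_apply] at h1
  exact h1

theorem restrict {F : IntermediateField ℚ ℂ} {n : ℕ} {l : Fin n → ℂ}
    (h : AlgebraicIndependent F l) : AlgebraicIndependent ℚ l :=
  h.restrictScalars (algebraMap ℚ F).injective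

theorem of_over {m : ℕ} {t : Fin m → ℂ} {h : ℕ} (hC : ConjectureOver t h) : Conjecture h := by
  intro n hn l hl hli
  apply restrict
  apply hC n l (fun i => (show IsAlgebraic ℚ (Complex.exp (l i)) from hl i).tower_top _) hli
  have hWfin : FiniteDimensional ℚ (Submodule.span ℚ (range l)) :=
    FiniteDimensional.span_of_finite ℚ (finite_range l)
  refine le_trans (Submodule.finrank_mono inf_le_left) ?_
  refine le_trans (finrank_range_le_card l) ?_
  rwa [Fintype.card_fin]

/-- **Main result.** (1) For `m ≥ 1` the set of the points `t` of `ℂᵐ` which are not good has Hausdorff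
dimension exactly `2 m - 2`. (2) For `m = 1` it is countable. (3) For every good `t` and every `h` the
conjecture for at most `h` logarithms of algebraic numbers is equivalent to the conjecture over `ℚ(t)`
for all tuples of logarithms whose span contains at most `h` independent logarithms of algebraic
numbers. (4) The latter is true for `h = 1`. (5) For every good `t` the conjecture is equivalent to
the conjecture over `ℚ(t)` without restriction. -/
theorem result :
    (∀ m : ℕ, 1 ≤ m → dimH {t : Fin m → ℂ | ¬ Good t} = ((2 * m - 2 : ℕ) : ℝ≥0∞)) ∧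
    {t : Fin 1 → ℂ | ¬ Good t}.Countable ∧
    (∀ (m : ℕ) (t : Fin m → ℂ), Good t → ∀ h : ℕ, Conjecture h ↔ ConjectureOver t h) ∧
    (∀ (m : ℕ) (t : Fin m → ℂ), Good t → ConjectureOver t 1) ∧
    (∀ (m : ℕ) (t : Fin m → ℂ), Good t →
      ((∀ (n : ℕ) (l : Fin n → ℂ), (∀ i, IsAlgebraic ℚ (Complex.exp (l i))) →
          LinearIndependent ℚ l → AlgebraicIndependent ℚ l) ↔
        ∀ (n : ℕ) (l : Fin n → ℂ), (∀ i, IsAlgebraic (Fld t) (Complex.exp (l i))) →
          LinearIndependent ℚ l → AlgebraicIndependent (Fld t) l)) := by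
  refine ⟨fun m hm => ?_, ?_, fun m t ht h => ⟨over_of ht, of_over⟩,
    fun m t ht => over_of ht conjecture_one, fun m t ht => ⟨fun h n l hl hli => ?_, fun h n l hl hli => ?_⟩⟩
  · obtain ⟨k, rfl⟩ : ∃ k, m = k + 1 := ⟨m - 1, by omega⟩
    rw [dim_good, show 2 * (k + 1) - 2 = 2 * k by omega]
  · exact (Generic.countable_bad countable_bot).mono (fun t ht hg => ht (good_of_gen hg))
  · exact over_of ht (h := finrank ℚ ↥(Submodule.span ℚ (range l) ⊓ Logs))
      (fun n' _ l' hl' hli' => h n' l' hl' hli') n l hl hli le_rfl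
  · exact restrict (h n l (fun i => (hl i).tower_top _) hli)

end Pool.Agent.Results.MP_60829e_nt.GenericFields
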