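import Pool.Agent.Helper35.IL.Mod
import Pool.Agent.Helper56.NL.Two
import Pool.Agent.Helper13.IL.SH
import Pool.Agent.Helper17.IL.BAS
import Pool.Agent.Helper28.IL.DG
import Pool.Agent.Helper58.IL.ENU
import Pool.Agent.Helper63.IL.TRS
import Pool.Agent.Helper68.IL.LWS
import Pool.Agent.Helper76.NL.DEG
import Pool.Agent.Helper87.HS.SCHX
import Pool.Agent.Helper93.HS.IND

/-!
`MP_60829e_nt` (algebraic independence of logarithms of algebraic numbers): which instances of the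
conjecture imply which. The definitions are in `Pool/Agent/Helper56/NL/Def.lean` and
`Pool/Agent/Helper35/IL/Def.lean`.
-/

set_option autoImplicit false

namespace Pool.Agent.Results.MP_60829e_nt.InstancesForLogarithms

open Pool.Agent.Helper56.NL Pool.Agent.Helper35.IL

theorem result :
    -- the instances which hold in a field form a staircase
    (∀ F : ExpField, LindemannWeierstrass F →
      ∃ d : ℕ → ℕ, Adm d ∧ ∀ n k, LogInst F n k ↔ d n ≤ k) ∧
    -- every staircase occurs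
    (∀ D : ℕ, 1 ≤ D → ∀ d : ℕ → ℕ, Adm d →
      ∃ F : ExpField, F.p = Real.pi ∧ LindemannWeierstrass F ∧ IndependentInDegree F D ∧
        SchanuelModuloLogs F ∧ ∀ n k, LogInst F n k ↔ d n ≤ k) ∧
    -- the implications between the instances
    (∀ (T : Set (ℕ × ℕ)) (n k : ℕ),
      ((∀ F : ExpField, LindemannWeierstrass F → (∀ s ∈ T, LogInst F s.1 s.2) → LogInst F n k) ↔
        n ≤ k + 1 ∨ ∃ s ∈ T, s.2 ≤ k ∧ n + s.2 ≤ s.1 + k) ∧
      ∀ D : ℕ, 1 ≤ D →
        ((∀ F : ExpField, F.p = Real.pi → LindemannWeierstrass F → IndependentInDegree F D →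
          SchanuelModuloLogs F → (∀ s ∈ T, LogInst F s.1 s.2) → LogInst F n k) ↔
            n ≤ k + 1 ∨ ∃ s ∈ T, s.2 ≤ k ∧ n + s.2 ≤ s.1 + k)) ∧
    -- the complex numbers
    (∃ F : ExpField, F.K = ⊤ ∧ F.E = Complex.exp ∧ F.p = Real.pi ∧
      (Question ↔ ∀ n, LogInst F n 0)) := by
  have hTRS := Pool.Agent.Helper63.IL.trs
  have hSH := Pool.Agent.Helper13.IL.sh
  have hreal : ∀ D : ℕ, 1 ≤ D → ∀ d : ℕ → ℕ, Adm d →
      ∃ F : ExpField, F.p = Real.pi ∧ LindemannWeierstrass F ∧ IndependentInDegree F D ∧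
        SchanuelModuloLogs F ∧ ∀ n k, LogInst F n k ↔ d n ≤ k := fun D hD d h =>
    realize Pool.Agent.Helper93.HS.ind Pool.Agent.Helper87.HS.schx Pool.Agent.Helper68.IL.lws
      Pool.Agent.Helper28.IL.dg Pool.Agent.Helper76.NL.deg Pool.Agent.Helper58.IL.enu
      Pool.Agent.Helper17.IL.bas hTRS hD h
  have hnot : ∀ (T : Set (ℕ × ℕ)) (n k D : ℕ), 1 ≤ D →
      (∀ F : ExpField, F.p = Real.pi → LindemannWeierstrass F → IndependentInDegree F D →
        SchanuelModuloLogs F → (∀ s ∈ T, LogInst F s.1 s.2) → LogInst F n k) →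
          n ≤ k + 1 ∨ ∃ s ∈ T, s.2 ≤ k ∧ n + s.2 ≤ s.1 + k := by
    intro T n k D hD h
    refine not_implies (Q := fun F => F.p = Real.pi ∧ LindemannWeierstrass F ∧
      IndependentInDegree F D ∧ SchanuelModuloLogs F) (fun d hd => ?_) (fun F hF hT =>
        h F hF.1 hF.2.1 hF.2.2.1 hF.2.2.2 hT)
    obtain ⟨F, h1, h2, h3, h4, h5⟩ := hreal D hD d hd
    exact ⟨F, ⟨h1, h2, h3, h4⟩, h5⟩
  refine ⟨shape hTRS hSH, hreal, fun T n k => ⟨⟨fun h => ?_, fun h F hLW hT =>
      implies hTRS hSH h hLW hT⟩, fun D hD => ⟨hnot T n k D hD, fun h F _ hLW _ _ hT =>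
      implies hTRS hSH h hLW hT⟩⟩, ?_⟩
  · exact hnot T n k 1 le_rfl fun F _ hLW _ _ hT => h F hLW hT
  · obtain ⟨F, hK, hE, hp⟩ := complex_field
    exact ⟨F, hK, hE, hp, question_iff hK hE hTRS⟩

end Pool.Agent.Results.MP_60829e_nt.InstancesForLogarithms
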