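import Pool.Agent.Helper56.NL.Main2
import Pool.Agent.Helper56.NL.Two
import Pool.Agent.Helper28.NL.ROY
import Pool.Agent.Helper63.NL.DET

/-!
# Logarithms of algebraic numbers in `ℚ(i)[π]`

The conjecture is that rationally independent logarithms of algebraic numbers are algebraically independent.
It is not known whether there are two algebraically independent logarithms of algebraic numbers. We show
that this does not follow from strong forms of all that is known. We consider exponential fields
(`ExpField`): algebraically closed subfields `K` of `ℂ` stable under complex conjugation with a
surjective homomorphism `E` from the additive to the multiplicative group of `K` that commutes with the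
conjugation and has kernel `2 π i ℤ`. The complex numbers with `exp` are such a field (part 3), and the
conjecture says that `IndependentInDegree` holds for all degrees `D`.

Part 1: for every `D ≥ 3` there is such a field, with the true number `π`, in which

* no nonzero polynomial of degree at most `D` with algebraic coefficients vanishes at rationally
  independent logarithms of algebraic numbers (`D = 1` is Baker's theorem),
* every matrix of linear forms in `1` and logarithms has rank at least `1 - 1 / D` times its structural
  rank (the theorem of Waldschmidt and Roy has `1 / 2`),
* the strong four exponentials conjecture, the theorem of Lindemann and Weierstrass, and Schanuel's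
  conjecture modulo logarithms hold,

and nevertheless every logarithm of an algebraic number is a polynomial in `π` with coefficients in
`ℚ(i)`, so that no two logarithms are algebraically independent; moreover `E` is close to `exp` at
finitely many given algebraic numbers and finitely many given logarithms are close to the true ones.

Part 2 (Roy 1995): with the constant one in the place of `1 - 1 / D`, Baker's theorem implies the
conjecture. So one is the exact threshold.

Proof of part 1. The new logarithms are rational multiples of `π ^ g k` or `i π ^ g k` with
`g k = ∏_{j ≤ k} (D + 1) ^ j`. Consider a matrix of linear forms in independent variables `x_0, ..., x_N`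
of rank `r` and substitute successively `x_N = x_{N-1} ^ b`, `x_{N-1} = x_{N-2} ^ b'`, ...: at each step the
entries are linear in the variable `y` which replaces `x = y ^ b`; if the rank drops by `k`, the minors of
maximal size are divisible by `(x - y ^ b) ^ k`, and their degree in `y` is at most `r`, so `b k ≤ r`
(`Helper28/NL/DIV`, `DROP`, `Helper18/NL/Rank`). The sum of the `1 / b` is less than `1 / D`. The strong four
exponentials conjecture follows from the rank inequality (`Helper18/NL/Four`), independence in degree `D`
from the uniqueness of expansions in base `D + 1` (`Helper76/NL/DEG`). The field is the union of a tower of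
strong extensions over the infinite dimensional space of the pairs (new logarithm, complex logarithm)
(`Ext.lean`, after `Helper35/EM`; `Helper58/NL/Base`, `Helper28/NL/SCH`, `Helper66/NL/LW`,
`Helper82/NL/PI`, `Helper83/NL/Near`).
-/

set_option autoImplicit false

namespace Pool.Agent.Results.MP_60829e_nt.NoTwoLogarithms

open Pool.Agent.Helper56.NL

theorem result :
    -- (1) the fields in which all logarithms of algebraic numbers are polynomials in `π`
    (∀ D : ℕ, 3 ≤ D → ∀ ε : ℝ, 0 < ε → ∀ (r m : ℕ) (α : Fin r → ℂ) (w : Fin m → ℂ),
      (∀ j, IsAlgebraic ℚ (α j)) → (∀ j, IsAlgebraic ℚ (Complex.exp (w j))) →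
        ∃ F : ExpField, F.p = Real.pi ∧ IndependentInDegree F D ∧ StructuralRank F (1 - 1 / D) ∧
          StrongFourExponentials F ∧ LindemannWeierstrass F ∧ SchanuelModuloLogs F ∧
            AllLogsInPi F ∧ (∀ u v, IsLog F u → IsLog F v → ¬ AlgebraicIndependent ℚ ![u, v]) ∧
              (∀ j, ‖F.E (α j) - Complex.exp (α j)‖ < ε) ∧
                ∀ j, ∃ u ∈ F.K, F.E u = Complex.exp (w j) ∧ ‖u - w j‖ < ε) ∧
    -- (2) the constant one
    (∀ F : ExpField, IndependentInDegree F 1 → StructuralRank F 1 → ∀ D, IndependentInDegree F D) ∧
    -- (3) the complex numbers
    (∃ F : ExpField, F.K = ⊤ ∧ F.E = Complex.exp ∧ F.p = Real.pi) := by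
  refine ⟨fun D hD ε hε r m α w hα hw => ?_, ?_, complex_field⟩
  · obtain ⟨F, hp, hLW, hdeg, hfour, hrank, hsch, hall, he, hw⟩ := models2 hD hε α hα w hw
    exact ⟨F, hp, hdeg, hrank, hfour, hLW, hsch, hall, fun u v hu hv => not_indep hall hu hv, he,
      hw⟩
  · exact Pool.Agent.Helper28.NL.roy Pool.Agent.Helper63.NL.s_DET

end Pool.Agent.Results.MP_60829e_nt.NoTwoLogarithms
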